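import Mathlib
import Pool.Agent.Work.MP_37fea8_co.AU.Main

set_option autoImplicit false

namespace Pool.Agent.Results.MP_37fea8_co.Automorphisms

/-- The Hoffman-Singleton graph in the pentagon and pentagram labelling: `(false, j, i)` is vertex
`i` of the pentagon `P_j`, and `(true, k, i)` is vertex `i` of the pentagram `Q_k`. -/
def HS : SimpleGraph (Bool × ZMod 5 × ZMod 5) :=
  SimpleGraph.fromRel (fun x y : Bool × ZMod 5 × ZMod 5 =>
    (x.1 = false ∧ y.1 = false ∧ x.2.1 = y.2.1 ∧ y.2.2 = x.2.2 + 1) ∨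
    (x.1 = true ∧ y.1 = true ∧ x.2.1 = y.2.1 ∧ y.2.2 = x.2.2 + 2) ∨
    (x.1 = false ∧ y.1 = true ∧ y.2.2 = x.2.2 + x.2.1 * y.2.1))

/-- Let `G 0, ..., G 6` be a decomposition of `K_50` into seven copies of the Hoffman-Singleton graph,
and let `A` be its automorphism group: the group of all permutations `g` of the vertices which permute
the seven copies (`g` maps `G i` to `G (s i)` for some permutation `s` of the indices).  Then `A` has
order `1`, `5` or `7`. -/
theorem result (G : Fin 7 → SimpleGraph (Fin 50)) (hiso : ∀ i, Nonempty (HS ≃g G i))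
    (hdisj : ∀ i j, i ≠ j → Disjoint (G i) (G j)) (hcov : (⨆ i, G i) = ⊤)
    (A : Subgroup (Equiv.Perm (Fin 50)))
    (hA : ∀ g : Equiv.Perm (Fin 50), g ∈ A ↔
      ∃ s : Equiv.Perm (Fin 7), ∀ i x y, (G (s i)).Adj (g x) (g y) ↔ (G i).Adj x y) :
    Nat.card A = 1 ∨ Nat.card A = 5 ∨ Nat.card A = 7 := by
  have hAD : A = Pool.Agent.Work.MP_37fea8_co.AutD G := Subgroup.ext fun g => hA g
  rw [hAD]
  exact Pool.Agent.Work.MP_37fea8_co.main ⟨hiso, hdisj, hcov⟩

end Pool.Agent.Results.MP_37fea8_co.Automorphisms
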