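import Mathlib

set_option autoImplicit false

namespace Pool.Agent.Results.MP_37fea8_co.EightCover

/-- The Hoffman-Singleton graph in the pentagon and pentagram labelling: `(false, j, i)` is vertex
`i` of the pentagon `P_j`, and `(true, k, i)` is vertex `i` of the pentagram `Q_k`. -/
def HS : SimpleGraph (Bool × ZMod 5 × ZMod 5) :=
  SimpleGraph.fromRel (fun x y : Bool × ZMod 5 × ZMod 5 =>
    (x.1 = false ∧ y.1 = false ∧ x.2.1 = y.2.1 ∧ y.2.2 = x.2.2 + 1) ∨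
    (x.1 = true ∧ y.1 = true ∧ x.2.1 = y.2.1 ∧ y.2.2 = x.2.2 + 2) ∨
    (x.1 = false ∧ y.1 = true ∧ y.2.2 = x.2.2 + x.2.1 * y.2.1))

/-- Vertex of the Hoffman-Singleton graph with a given code. -/
def dec (n : ℕ) : Bool × ZMod 5 × ZMod 5 :=
  (Nat.ble 25 n, ((n / 5 : ℕ) : ZMod 5), ((n % 5 : ℕ) : ZMod 5))

/-- The tables: entry `v` of table `i` is the code of the Hoffman-Singleton vertex sitting at `v`
in copy `i`. -/
def tab : Fin 8 → List ℕ := ![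
  [37, 3, 14, 27, 6, 9, 46, 19, 39, 43, 10, 12, 32, 36, 26, 8, 49, 16, 28, 47, 17, 33, 31, 22, 44,
    42, 20, 24, 4, 40, 25, 45, 30, 1, 35, 7, 5, 48, 13, 2, 38, 29, 41, 11, 34, 23, 15, 18, 21, 0],
  [32, 39, 12, 19, 10, 36, 43, 20, 31, 42, 33, 44, 24, 22, 45, 35, 25, 1, 40, 30, 4, 48, 38, 5, 2,
    7, 13, 29, 23, 21, 34, 18, 11, 15, 41, 27, 46, 14, 9, 3, 6, 37, 17, 49, 47, 8, 28, 26, 16, 0],
  [37, 3, 14, 27, 6, 9, 46, 22, 44, 42, 20, 24, 33, 31, 41, 11, 34, 23, 15, 18, 21, 35, 4, 40, 25,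
    45, 30, 1, 26, 8, 49, 16, 28, 47, 17, 43, 10, 12, 32, 36, 19, 39, 7, 5, 48, 13, 2, 38, 29, 0],
  [38, 48, 29, 13, 7, 2, 5, 39, 32, 43, 36, 10, 19, 12, 49, 17, 16, 26, 28, 8, 47, 9, 14, 46, 27,
    37, 6, 3, 42, 31, 20, 22, 24, 44, 33, 21, 23, 41, 15, 11, 18, 34, 45, 4, 30, 40, 1, 25, 35, 0],
  [31, 20, 22, 24, 44, 33, 42, 30, 40, 1, 25, 35, 45, 4, 34, 21, 23, 41, 15, 11, 18, 36, 10, 19,
    12, 39, 32, 43, 8, 47, 49, 17, 16, 26, 28, 6, 3, 9, 14, 46, 27, 37, 38, 48, 29, 13, 7, 2, 5,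
    0],
  [24, 31, 44, 20, 33, 22, 42, 41, 34, 15, 21, 11, 23, 18, 46, 3, 27, 9, 37, 14, 6, 12, 36, 39,
    10, 32, 19, 43, 38, 7, 48, 2, 29, 5, 13, 35, 40, 45, 1, 4, 25, 30, 17, 8, 16, 47, 26, 49, 28,
    0],
  [40, 45, 1, 4, 25, 30, 35, 48, 2, 29, 5, 13, 38, 7, 9, 37, 14, 6, 46, 3, 27, 17, 8, 16, 47, 26,
    49, 28, 11, 23, 18, 41, 34, 15, 21, 43, 12, 36, 39, 10, 32, 19, 42, 24, 31, 44, 20, 33, 22, 0],
  [32, 10, 39, 36, 12, 43, 19, 27, 3, 46, 6, 14, 37, 9, 17, 28, 49, 26, 47, 16, 8, 1, 45, 40, 35,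
    30, 25, 4, 7, 38, 13, 5, 29, 2, 48, 24, 42, 22, 33, 20, 44, 31, 21, 15, 34, 41, 18, 23, 11, 0]]

/-- Adjacency of codes, as a Boolean on natural numbers. -/
def adjB (m n : ℕ) : Bool :=
  let a := m % 5
  let b := n % 5
  let j := (m / 5) % 5
  let k := (n / 5) % 5
  bif Nat.ble 25 m then
    (bif Nat.ble 25 n then (Nat.beq j k && (Nat.beq b ((a + 2) % 5) || Nat.beq a ((b + 2) % 5)))
      else Nat.beq a ((b + k * j) % 5))
  else
    (bif Nat.ble 25 n then Nat.beq b ((a + j * k) % 5)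
      else (Nat.beq j k && (Nat.beq b ((a + 1) % 5) || Nat.beq a ((b + 1) % 5))))

instance : DecidableRel HS.Adj := fun x y => by
  unfold HS
  rw [SimpleGraph.fromRel_adj]
  infer_instance

theorem adj_dec : ∀ m : Fin 50, ∀ n : Fin 50, HS.Adj (dec m) (dec n) ↔ adjB m n = true := by
  decide +kernel

theorem dec_inj : ∀ m : Fin 50, ∀ n : Fin 50, dec m = dec n → m = n := by
  decide +kernel

def f (i : Fin 8) (v : Fin 50) : Bool × ZMod 5 × ZMod 5 := dec ((tab i).getD v 0)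

theorem tab_lt : ∀ i : Fin 8, ∀ v : Fin 50, (tab i).getD v 0 < 50 := by decide +kernel

theorem tab_inj : ∀ i : Fin 8, ∀ v w : Fin 50, (tab i).getD v 0 = (tab i).getD w 0 → v = w := by
  decide +kernel

theorem f_bij (i : Fin 8) : Function.Bijective (f i) := by
  rw [Fintype.bijective_iff_injective_and_card]
  refine ⟨?_, by simp [ZMod.card]⟩
  intro v w h
  have h3 := dec_inj ⟨_, tab_lt i v⟩ ⟨_, tab_lt i w⟩ h
  exact tab_inj i v w (by simpa using congrArg Fin.val h3)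

theorem cover : ∀ v w : Fin 50, v ≠ w →
    ∃ i : Fin 8, adjB ((tab i).getD v 0) ((tab i).getD w 0) = true := by
  decide +kernel

noncomputable def G (i : Fin 8) : SimpleGraph (Fin 50) :=
  HS.comap (Equiv.ofBijective (f i) (f_bij i))

theorem G_adj (i : Fin 8) (v w : Fin 50) :
    (G i).Adj v w ↔ adjB ((tab i).getD v 0) ((tab i).getD w 0) = true :=
  adj_dec ⟨_, tab_lt i v⟩ ⟨_, tab_lt i w⟩

/-- Eight copies of the Hoffman-Singleton graph cover all edges of `K_50`. -/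
theorem result :
    ∃ G : Fin 8 → SimpleGraph (Fin 50),
      (∀ i, Nonempty (HS ≃g G i)) ∧ ∀ x y : Fin 50, x ≠ y → ∃ i, (G i).Adj x y := by
  refine ⟨G, fun i => ⟨(SimpleGraph.Iso.comap (Equiv.ofBijective (f i) (f_bij i)) HS).symm⟩, ?_⟩
  intro x y hxy
  obtain ⟨i, hi⟩ := cover x y hxy
  exact ⟨i, (G_adj i x y).2 hi⟩

end Pool.Agent.Results.MP_37fea8_co.EightCover
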