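import Mathlib

set_option autoImplicit false

namespace Pool.Agent.Results.MP_37fea8_co.LambdaFold

/-- The Hoffman-Singleton graph in the pentagon and pentagram labelling: `(false, j, i)` is vertex
`i` of the pentagon `P_j`, and `(true, k, i)` is vertex `i` of the pentagram `Q_k`. -/
def HS : SimpleGraph (Bool × ZMod 5 × ZMod 5) :=
  SimpleGraph.fromRel (fun x y : Bool × ZMod 5 × ZMod 5 =>
    (x.1 = false ∧ y.1 = false ∧ x.2.1 = y.2.1 ∧ y.2.2 = x.2.2 + 1) ∨
    (x.1 = true ∧ y.1 = true ∧ x.2.1 = y.2.1 ∧ y.2.2 = x.2.2 + 2) ∨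
    (x.1 = false ∧ y.1 = true ∧ y.2.2 = x.2.2 + x.2.1 * y.2.1))

/-- Vertex of the Hoffman-Singleton graph with a given code. -/
def dec (n : ℕ) : Bool × ZMod 5 × ZMod 5 :=
  (Nat.ble 25 n, ((n / 5 : ℕ) : ZMod 5), ((n % 5 : ℕ) : ZMod 5))

/-- Adjacency of codes, as a Boolean on natural numbers. -/
def adjB (m n : ℕ) : Bool :=
  let a := m % 5
  let b := n % 5
  let j := (m / 5) % 5
  let k := (n / 5) % 5
  bif Nat.ble 25 m then
    (bif Nat.ble 25 n then (Nat.beq j k && (Nat.beq b ((a + 2) % 5) || Nat.beq a ((b + 2) % 5)))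
      else Nat.beq a ((b + k * j) % 5))
  else
    (bif Nat.ble 25 n then Nat.beq b ((a + j * k) % 5)
      else (Nat.beq j k && (Nat.beq b ((a + 1) % 5) || Nat.beq a ((b + 1) % 5))))

instance : DecidableRel HS.Adj := fun x y => by
  unfold HS
  rw [SimpleGraph.fromRel_adj]
  infer_instance

theorem adj_dec : ∀ m : Fin 50, ∀ n : Fin 50, HS.Adj (dec m) (dec n) ↔ adjB m n = true := by
  decide +kernel

theorem dec_inj : ∀ m : Fin 50, ∀ n : Fin 50, dec m = dec n → m = n := by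
  decide +kernel

/-- Two base tables. -/
def bt2 : List (List ℕ) := [
  [1, 4, 25, 30, 35, 40, 45, 2, 29, 5, 13, 38, 7, 48, 6, 46, 3, 27, 9, 37, 14, 41, 34, 15, 21, 11,
    23, 18, 44, 20, 33, 22, 42, 24, 31, 16, 47, 26, 49, 28, 17, 8, 12, 36, 39, 10, 32, 19, 43, 0],
  [1, 4, 25, 30, 35, 40, 45, 48, 2, 29, 5, 13, 38, 7, 17, 8, 16, 47, 26, 49, 28, 6, 46, 3, 27, 9,
    37, 14, 10, 32, 19, 43, 12, 36, 39, 20, 33, 22, 42, 24, 31, 44, 11, 23, 18, 41, 34, 15, 21, 0]]

/-- Three base tables. -/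
def bt3 : List (List ℕ) := [
  [1, 4, 25, 30, 35, 40, 45, 32, 19, 43, 12, 36, 39, 10, 29, 5, 13, 38, 7, 48, 2, 20, 33, 22, 42,
    24, 31, 44, 46, 3, 27, 9, 37, 14, 6, 34, 15, 21, 11, 23, 18, 41, 28, 17, 8, 16, 47, 26, 49, 0],
  [1, 4, 25, 30, 35, 40, 45, 6, 46, 3, 27, 9, 37, 14, 8, 16, 47, 26, 49, 28, 17, 13, 38, 7, 48, 2,
    29, 5, 39, 10, 32, 19, 43, 12, 36, 42, 24, 31, 44, 20, 33, 22, 18, 41, 34, 15, 21, 11, 23, 0],
  [1, 4, 25, 30, 35, 40, 45, 28, 17, 8, 16, 47, 26, 49, 2, 29, 5, 13, 38, 7, 48, 34, 15, 21, 11,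
    23, 18, 41, 10, 32, 19, 43, 12, 36, 39, 37, 14, 6, 46, 3, 27, 9, 24, 31, 44, 20, 33, 22, 42,
    0]]

/-- The point `v = 7 p + x` is moved to `7 (p - t) + x`; the point `49` is fixed. -/
def idx (t v : ℕ) : ℕ := bif Nat.beq v 49 then 49 else 7 * ((v / 7 + 7 - t) % 7) + v % 7

/-- Copy `i = 7 b + t` is the base table `b` translated by `t`. -/
def lab (L : List (List ℕ)) (i v : ℕ) : ℕ := (L.getD (i / 7) []).getD (idx (i % 7) v) 0

theorem lab_lt2 : ∀ i : Fin 14, ∀ v : Fin 50, lab bt2 i v < 50 := by decide +kernel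

theorem lab_inj2 : ∀ i : Fin 14, ∀ v w : Fin 50, lab bt2 i v = lab bt2 i w → v = w := by
  decide +kernel

theorem lab_lt3 : ∀ i : Fin 21, ∀ v : Fin 50, lab bt3 i v < 50 := by decide +kernel

theorem lab_inj3 : ∀ i : Fin 21, ∀ v w : Fin 50, lab bt3 i v = lab bt3 i w → v = w := by
  decide +kernel

theorem count2 : ∀ v w : Fin 50, v ≠ w →
    (Finset.univ.filter fun i : Fin 14 => adjB (lab bt2 i v) (lab bt2 i w) = true).card = 2 := by
  decide +kernel

theorem count3 : ∀ v w : Fin 50, v ≠ w →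
    (Finset.univ.filter fun i : Fin 21 => adjB (lab bt3 i v) (lab bt3 i w) = true).card = 3 := by
  decide +kernel

/-- A family of copies of the Hoffman-Singleton graph covering every edge `lam` times. -/
def Good (lam : ℕ) : Prop :=
  ∃ (I : Type) (_ : Fintype I) (G : I → SimpleGraph (Fin 50)), Fintype.card I = 7 * lam ∧
    (∀ i, Nonempty (HS ≃g G i)) ∧ ∀ x y : Fin 50, x ≠ y → Nat.card {i // (G i).Adj x y} = lam

theorem good_of {m lam : ℕ} (L : List (List ℕ)) (hm : m = 7 * lam)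
    (h1 : ∀ i : Fin m, ∀ v : Fin 50, lab L i v < 50)
    (h2 : ∀ i : Fin m, ∀ v w : Fin 50, lab L i v = lab L i w → v = w)
    (h3 : ∀ v w : Fin 50, v ≠ w →
      (Finset.univ.filter fun i : Fin m => adjB (lab L i v) (lab L i w) = true).card = lam) :
    Good lam := by
  have hb : ∀ i : Fin m, Function.Bijective fun v : Fin 50 => dec (lab L i v) := by
    intro i
    rw [Fintype.bijective_iff_injective_and_card]
    refine ⟨?_, by simp [ZMod.card]⟩
    intro v w h
    have h4 := dec_inj ⟨_, h1 i v⟩ ⟨_, h1 i w⟩ h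
    exact h2 i v w (by simpa using congrArg Fin.val h4)
  refine ⟨Fin m, inferInstance, fun i => HS.comap (Equiv.ofBijective _ (hb i)), ?_, ?_, ?_⟩
  · rw [Fintype.card_fin, hm]
  · intro i
    exact ⟨(SimpleGraph.Iso.comap (Equiv.ofBijective _ (hb i)) HS).symm⟩
  · intro x y hxy
    have h5 : ∀ i : Fin m, (HS.comap (Equiv.ofBijective _ (hb i))).Adj x y ↔
        adjB (lab L i x) (lab L i y) = true := fun i => adj_dec ⟨_, h1 i x⟩ ⟨_, h1 i y⟩
    rw [Nat.card_congr (Equiv.subtypeEquivRight h5), Nat.card_eq_fintype_card,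
      Fintype.card_subtype]
    exact h3 x y hxy

theorem good_add {a b : ℕ} (ha : Good a) (hb : Good b) : Good (a + b) := by
  obtain ⟨I, hI, G, h1, h2, h3⟩ := ha
  obtain ⟨J, hJ, H, g1, g2, g3⟩ := hb
  refine ⟨I ⊕ J, inferInstance, Sum.elim G H, ?_, ?_, ?_⟩
  · rw [Fintype.card_sum, h1, g1]
    ring
  · rintro (i | j)
    · exact h2 i
    · exact g2 j
  · intro x y hxy
    have e : {i // (Sum.elim G H i).Adj x y} ≃ {i // (G i).Adj x y} ⊕ {j // (H j).Adj x y} :=
      Equiv.subtypeSum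
    rw [Nat.card_congr e, Nat.card_sum, h3 x y hxy, g3 x y hxy]

theorem good_all (lam : ℕ) (h : 2 ≤ lam) : Good lam := by
  have g2 : Good 2 := good_of bt2 rfl lab_lt2 lab_inj2 count2
  have g3 : Good 3 := good_of bt3 rfl lab_lt3 lab_inj3 count3
  induction lam using Nat.strong_induction_on with
  | _ lam ih =>
    rcases Nat.lt_or_ge lam 4 with h4 | h4
    · interval_cases lam
      · exact g2
      · exact g3
    · have h5 := good_add (ih (lam - 2) (by omega) (by omega)) g2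
      rwa [Nat.sub_add_cancel h] at h5

/-- For every `lam ≥ 2` there are `7 * lam` copies of the Hoffman-Singleton graph on the vertex set
of `K_50` such that every edge of `K_50` lies in exactly `lam` of them. -/
theorem result (lam : ℕ) (h : 2 ≤ lam) :
    ∃ G : Fin (7 * lam) → SimpleGraph (Fin 50), (∀ i, Nonempty (HS ≃g G i)) ∧
      ∀ x y : Fin 50, x ≠ y → {i | (G i).Adj x y}.ncard = lam := by
  obtain ⟨I, hI, G, h1, h2, h3⟩ := good_all lam h
  set e : I ≃ Fin (7 * lam) := Fintype.equivFinOfCardEq h1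
  refine ⟨fun i => G (e.symm i), fun i => h2 _, fun x y hxy => ?_⟩
  refine Eq.trans ?_ (h3 x y hxy)
  rw [← Nat.card_coe_set_eq]
  exact Nat.card_congr (e.symm.subtypeEquiv fun i => Iff.rfl)

end Pool.Agent.Results.MP_37fea8_co.LambdaFold
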