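import Mathlib

set_option autoImplicit false

namespace Pool.Agent.Results.MP_37fea8_co.SixCopies

/-- The Hoffman-Singleton graph in the pentagon and pentagram labelling: `(false, j, i)` is vertex
`i` of the pentagon `P_j`, and `(true, k, i)` is vertex `i` of the pentagram `Q_k`. -/
def HS : SimpleGraph (Bool × ZMod 5 × ZMod 5) :=
  SimpleGraph.fromRel (fun x y : Bool × ZMod 5 × ZMod 5 =>
    (x.1 = false ∧ y.1 = false ∧ x.2.1 = y.2.1 ∧ y.2.2 = x.2.2 + 1) ∨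
    (x.1 = true ∧ y.1 = true ∧ x.2.1 = y.2.1 ∧ y.2.2 = x.2.2 + 2) ∨
    (x.1 = false ∧ y.1 = true ∧ y.2.2 = x.2.2 + x.2.1 * y.2.1))

/-- Vertex of the Hoffman-Singleton graph with a given code. -/
def dec (n : ℕ) : Bool × ZMod 5 × ZMod 5 :=
  (Nat.ble 25 n, ((n / 5 : ℕ) : ZMod 5), ((n % 5 : ℕ) : ZMod 5))

/-- The tables: entry `v` of table `i` is the code of the Hoffman-Singleton vertex sitting at `v`
in copy `i`. -/
def tab : Fin 6 → List ℕ := ![
  [1, 4, 25, 30, 35, 40, 45, 2, 29, 5, 13, 38, 7, 48, 3, 27, 9, 37, 14, 6, 46, 8, 16, 47, 26, 49,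
    28, 17, 10, 32, 19, 43, 12, 36, 39, 11, 23, 18, 41, 34, 15, 21, 20, 33, 22, 42, 24, 31, 44, 0],
  [16, 47, 26, 49, 28, 17, 8, 1, 4, 25, 30, 35, 40, 45, 32, 19, 43, 12, 36, 39, 10, 22, 42, 24, 31,
    44, 20, 33, 3, 27, 9, 37, 14, 6, 46, 21, 11, 23, 18, 41, 34, 15, 13, 38, 7, 48, 2, 29, 5, 0],
  [9, 37, 14, 6, 46, 3, 27, 20, 33, 22, 42, 24, 31, 44, 1, 4, 25, 30, 35, 40, 45, 32, 19, 43, 12,
    36, 39, 10, 23, 18, 41, 34, 15, 21, 11, 26, 49, 28, 17, 8, 16, 47, 5, 13, 38, 7, 48, 2, 29, 0],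
  [48, 2, 29, 5, 13, 38, 7, 8, 16, 47, 26, 49, 28, 17, 20, 33, 22, 42, 24, 31, 44, 1, 4, 25, 30,
    35, 40, 45, 3, 27, 9, 37, 14, 6, 46, 15, 21, 11, 23, 18, 41, 34, 36, 39, 10, 32, 19, 43, 12, 0],
  [39, 10, 32, 19, 43, 12, 36, 11, 23, 18, 41, 34, 15, 21, 29, 5, 13, 38, 7, 48, 2, 27, 9, 37, 14,
    6, 46, 3, 1, 4, 25, 30, 35, 40, 45, 33, 22, 42, 24, 31, 44, 20, 49, 28, 17, 8, 16, 47, 26, 0],
  [3, 27, 9, 37, 14, 6, 46, 39, 10, 32, 19, 43, 12, 36, 8, 16, 47, 26, 49, 28, 17, 48, 2, 29, 5,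
    13, 38, 7, 24, 31, 44, 20, 33, 22, 42, 1, 4, 25, 30, 35, 40, 45, 23, 18, 41, 34, 15, 21, 11, 0]]

/-- Adjacency of codes, as a Boolean on natural numbers. -/
def adjB (m n : ℕ) : Bool :=
  let a := m % 5
  let b := n % 5
  let j := (m / 5) % 5
  let k := (n / 5) % 5
  bif Nat.ble 25 m then
    (bif Nat.ble 25 n then (Nat.beq j k && (Nat.beq b ((a + 2) % 5) || Nat.beq a ((b + 2) % 5)))
      else Nat.beq a ((b + k * j) % 5))
  else
    (bif Nat.ble 25 n then Nat.beq b ((a + j * k) % 5)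
      else (Nat.beq j k && (Nat.beq b ((a + 1) % 5) || Nat.beq a ((b + 1) % 5))))

instance : DecidableRel HS.Adj := fun x y => by
  unfold HS
  rw [SimpleGraph.fromRel_adj]
  infer_instance

theorem adj_dec : ∀ m : Fin 50, ∀ n : Fin 50, HS.Adj (dec m) (dec n) ↔ adjB m n = true := by
  decide +kernel

theorem dec_inj : ∀ m : Fin 50, ∀ n : Fin 50, dec m = dec n → m = n := by
  decide +kernel

def f (i : Fin 6) (v : Fin 50) : Bool × ZMod 5 × ZMod 5 := dec ((tab i).getD v 0)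

theorem f_bij (i : Fin 6) : Function.Bijective (f i) := by
  rw [Fintype.bijective_iff_injective_and_card]
  refine ⟨?_, by simp [ZMod.card]⟩
  have h1 : ∀ i : Fin 6, ∀ v : Fin 50, (tab i).getD v 0 < 50 := by decide +kernel
  have h2 : ∀ i : Fin 6, ∀ v w : Fin 50, (tab i).getD v 0 = (tab i).getD w 0 → v = w := by
    decide +kernel
  intro v w h
  have h3 := dec_inj ⟨_, h1 i v⟩ ⟨_, h1 i w⟩ h
  exact h2 i v w (by simpa using congrArg Fin.val h3)

theorem disj : ∀ i j : Fin 6, i < j → ∀ v w : Fin 50,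
    (adjB ((tab i).getD v 0) ((tab i).getD w 0) &&
      adjB ((tab j).getD v 0) ((tab j).getD w 0)) = false := by
  decide +kernel

noncomputable def G (i : Fin 6) : SimpleGraph (Fin 50) :=
  HS.comap (Equiv.ofBijective (f i) (f_bij i))

theorem G_adj (i : Fin 6) (v w : Fin 50) :
    (G i).Adj v w ↔ adjB ((tab i).getD v 0) ((tab i).getD w 0) = true := by
  have h1 : ∀ i : Fin 6, ∀ v : Fin 50, (tab i).getD v 0 < 50 := by decide +kernel
  exact adj_dec ⟨_, h1 i v⟩ ⟨_, h1 i w⟩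

/-- There are six pairwise edge-disjoint copies of the Hoffman-Singleton graph on the vertex set
of `K_50`. -/
theorem result :
    ∃ G : Fin 6 → SimpleGraph (Fin 50),
      (∀ i, Nonempty (HS ≃g G i)) ∧ (∀ i j, i ≠ j → Disjoint (G i) (G j)) := by
  refine ⟨G, fun i => ⟨(SimpleGraph.Iso.comap (Equiv.ofBijective (f i) (f_bij i)) HS).symm⟩, ?_⟩
  have key : ∀ i j : Fin 6, i < j → Disjoint (G i) (G j) := by
    intro i j hij
    rw [SimpleGraph.disjoint_left]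
    intro v w h1 h2
    rw [G_adj] at h1 h2
    have := disj i j hij v w
    rw [h1, h2] at this
    simp at this
  intro i j hij
  rcases lt_or_gt_of_ne hij with h | h
  · exact key i j h
  · exact (key j i h).symm

end Pool.Agent.Results.MP_37fea8_co.SixCopies
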